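import Mathlib

set_option autoImplicit false

/-!
# Order dimension of Hasse-regular semidistributive lattices: definitions
-/

namespace Pool.Agent.helper20.HasseDim

universe u

/-- The degree of `x` in the Hasse diagram: the number of elements covered by `x` plus the number
of elements covering `x`. -/
noncomputable def hasseDegree {L : Type u} [PartialOrder L] (x : L) : ℕ :=
  {y : L | y ⋖ x}.ncard + {y : L | x ⋖ y}.ncard

/-- `L` is `r`-Hasse-regular: every element has degree exactly `r`. -/
def HasseRegular (r : ℕ) (L : Type u) [PartialOrder L] : Prop :=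
  ∀ x : L, hasseDegree x = r

/-- `L` is semidistributive. -/
def Semidistributive (L : Type u) [Lattice L] : Prop :=
  ∀ x y z : L, (x ⊔ y = x ⊔ z → x ⊔ y = x ⊔ (y ⊓ z)) ∧ (x ⊓ y = x ⊓ z → x ⊓ y = x ⊓ (y ⊔ z))

/-- The underlying set `(L \ I) ∪ (I × {0,1})` of Day's doubling of the interval `I = [a, b]`. -/
inductive Doubling {L : Type u} [PartialOrder L] (a b : L) : Type u
  | out (x : L) (h : ¬ (a ≤ x ∧ x ≤ b)) : Doubling a b
  | dbl (x : L) (h : a ≤ x ∧ x ≤ b) (i : Bool) : Doubling a b

/-- The order of Day's doubling: compare in `L`, and for two elements of `I × {0,1}` compare also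
the second coordinates. -/
def Doubling.le {L : Type u} [PartialOrder L] {a b : L} : Doubling a b → Doubling a b → Prop
  | .out x _, .out y _ => x ≤ y
  | .out x _, .dbl y _ _ => x ≤ y
  | .dbl x _ _, .out y _ => x ≤ y
  | .dbl x _ i, .dbl y _ j => x ≤ y ∧ i ≤ j

instance {L : Type u} [PartialOrder L] {a b : L} : LE (Doubling a b) := ⟨Doubling.le⟩

/-- Congruence uniform lattices: those obtained from a one-element lattice by finitely many
interval doublings. -/
inductive CongruenceUniform : (L : Type u) → [Lattice L] → Prop
  | one (L : Type u) [Lattice L] [Unique L] : CongruenceUniform L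
  | double (L M : Type u) [Lattice L] [Lattice M] (a b : L) (hab : a ≤ b)
      (e : M ≃o Doubling a b) (hL : CongruenceUniform L) : CongruenceUniform M

/-- `L` has a realizer of size `k`: there are `k` linear orders on `L` whose intersection is the
order of `L`. -/
def HasRealizer (L : Type u) [PartialOrder L] (k : ℕ) : Prop :=
  ∃ R : Fin k → L → L → Prop, (∀ i, IsLinearOrder L (R i)) ∧ ∀ x y : L, x ≤ y ↔ ∀ i, R i x y

/-- The order dimension (Dushnik and Miller): the least size of a realizer. -/
noncomputable def orderDim (L : Type u) [PartialOrder L] : ℕ := sInf {k | HasRealizer L k}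

end Pool.Agent.helper20.HasseDim
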