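import Pool.Agent.helper20.HasseDim.Defs

set_option autoImplicit false

/-!
# Order dimension of Hasse-regular semidistributive lattices: proofs

The base case `r = 4` is a lattice with 343 elements, built by 72 interval doublings.  An element
is a 72-bit mask; each doubling appends a bit at the least significant place.  The lattice is a
lattice quotient of the poset of regions of a rank 4 restriction of the reflection arrangement of
type `E_7`.  Its order dimension is larger than 4 because the graph of two-element alternating
cycles of critical pairs contains a subgraph on 19 vertices which is not 4-colourable.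
-/

namespace Pool.Agent.helper20.HasseDim

universe u

/-! ## Every finite order has a realizer -/

theorem exists_lin {L : Type u} [PartialOrder L] {x y : L} (hxy : ¬ x ≤ y) :
    ∃ R : L → L → Prop, IsLinearOrder L R ∧ (∀ u v : L, u ≤ v → R u v) ∧ ¬ R x y := by
  let r : L → L → Prop := fun u v => u ≤ v ∨ (u ≤ y ∧ x ≤ v)
  have hr : IsPartialOrder L r :=
    { refl := fun a => Or.inl le_rfl
      trans := by
        rintro a b c (h1 | ⟨h1, h2⟩) (h3 | ⟨h3, h4⟩)
        · exact Or.inl (h1.trans h3)
        · exact Or.inr ⟨h1.trans h3, h4⟩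
        · exact Or.inr ⟨h1, h2.trans h3⟩
        · exact Or.inr ⟨h1, h4⟩
      antisymm := by
        rintro a b (h1 | ⟨h1, h2⟩) (h3 | ⟨h3, h4⟩)
        · exact le_antisymm h1 h3
        · exact absurd (h4.trans (h1.trans h3)) hxy
        · exact absurd (h2.trans (h3.trans h1)) hxy
        · exact absurd (h2.trans h3) hxy }
  obtain ⟨s, hs, hrs⟩ := extend_partialOrder r
  refine ⟨s, hs, fun u v huv => hrs u v (Or.inl huv), fun hsxy => ?_⟩
  have h1 : s y x := hrs y x (Or.inr ⟨le_rfl, le_rfl⟩)
  have h2 : x = y := hs.antisymm x y hsxy h1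
  exact hxy (h2 ▸ le_rfl)

theorem exists_realizer (L : Type u) [PartialOrder L] [Finite L] : ∃ k, HasRealizer L k := by
  classical
  have := Fintype.ofFinite L
  let P := {p : L × L // ¬ p.1 ≤ p.2}
  have hR : ∀ p : P, ∃ R : L → L → Prop, IsLinearOrder L R ∧ (∀ u v : L, u ≤ v → R u v) ∧
      ¬ R p.1.1 p.1.2 := fun p => exists_lin p.2
  choose R hR1 hR2 hR3 using hR
  let e := Fintype.equivFin P
  refine ⟨Fintype.card P, fun i => R (e.symm i), fun i => hR1 _, fun x y => ⟨fun h i => hR2 _ _ _ h, fun h => ?_⟩⟩
  by_contra hxy
  have h1 : R (e.symm (e ⟨(x, y), hxy⟩)) x y := h (e ⟨(x, y), hxy⟩)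
  rw [Equiv.symm_apply_apply] at h1
  exact hR3 _ h1

/-! ## A lower bound for the dimension -/

/-- A family of pairs `(j, m)` with `j ≰ m` such that every colouring by `n` colours has two
indices (maybe equal) of one colour which form an alternating cycle. -/
def Crit (L : Type u) [PartialOrder L] (n : ℕ) : Prop :=
  ∃ (ι : Type u) (j m : ι → L), (∀ i, ¬ j i ≤ m i) ∧
    ∀ c : ι → Fin n, ∃ i i', c i = c i' ∧ j i ≤ m i' ∧ j i' ≤ m i

theorem Crit.lt {L : Type u} [PartialOrder L] {n : ℕ} (h : Crit L n) {k : ℕ}
    (hk : HasRealizer L k) : n < k := by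
  by_contra hnk
  have hkn : k ≤ n := not_lt.mp hnk
  obtain ⟨ι, j, m, hjm, hc⟩ := h
  obtain ⟨R, hR, hR'⟩ := hk
  have h1 : ∀ i, ∃ t, ¬ R t (j i) (m i) := by
    intro i
    by_contra hcon
    push Not at hcon
    exact hjm i ((hR' _ _).mpr hcon)
  choose t ht using h1
  obtain ⟨i, i', hii, h2, h3⟩ := hc (fun i => Fin.castLE hkn (t i))
  have hii' : t i = t i' := Fin.castLE_injective hkn hii
  have h4 : R (t i) (j i) (m i') := (hR' _ _).mp h2 _
  have h5 : R (t i) (j i') (m i) := (hR' _ _).mp h3 _
  have h6 : R (t i) (m i') (j i') := by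
    rcases (hR (t i)).total (m i') (j i') with h | h
    · exact h
    · exact absurd (hii' ▸ h) (ht i')
  exact ht i ((hR (t i)).trans _ _ _ h4 ((hR (t i)).trans _ _ _ h6 h5))

theorem Crit.lt_orderDim {L : Type u} [PartialOrder L] [Finite L] {n : ℕ} (h : Crit L n) :
    n < orderDim L := by
  have h1 : orderDim L ∈ {k | HasRealizer L k} := Nat.sInf_mem (exists_realizer L)
  exact h.lt h1

/-! ## Interval doublings preserve semidistributivity -/

section Doubling

variable {L : Type u} [PartialOrder L] {a b : L}

/-- Projection of the doubling to the lattice. -/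
def Doubling.proj : Doubling a b → L
  | .out x _ => x
  | .dbl x _ _ => x

/-- The second coordinate, extended to the whole doubling. -/
def Doubling.flag : Doubling a b → Prop
  | .out x _ => a ≤ x
  | .dbl _ _ i => i = true

theorem Doubling.le_iff {d d' : Doubling a b} :
    d ≤ d' ↔ d.proj ≤ d'.proj ∧ (d.flag → d'.flag) := by
  cases d with
  | out x hx =>
    cases d' with
    | out y hy =>
      change x ≤ y ↔ x ≤ y ∧ (a ≤ x → a ≤ y)
      exact ⟨fun h => ⟨h, fun h' => h'.trans h⟩, fun h => h.1⟩
    | dbl y hy j =>
      change x ≤ y ↔ x ≤ y ∧ (a ≤ x → j = true)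
      exact ⟨fun h => ⟨h, fun h' => absurd ⟨h', h.trans hy.2⟩ hx⟩, fun h => h.1⟩
  | dbl x hx i =>
    cases d' with
    | out y hy =>
      change x ≤ y ↔ x ≤ y ∧ (i = true → a ≤ y)
      exact ⟨fun h => ⟨h, fun _ => hx.1.trans h⟩, fun h => h.1⟩
    | dbl y hy j =>
      change x ≤ y ∧ i ≤ j ↔ x ≤ y ∧ (i = true → j = true)
      rw [Bool.le_iff_imp]

theorem Doubling.flag_true {d : Doubling a b} (h : d.flag) : a ≤ d.proj := by
  cases d with
  | out x hx => exact h
  | dbl x hx i => exact hx.1

theorem Doubling.flag_false {d : Doubling a b} (h : ¬ d.flag) (h' : a ≤ d.proj) : d.proj ≤ b := by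
  cases d with
  | out x hx => exact absurd h' h
  | dbl x hx i => exact hx.2

theorem Doubling.exists_of (x : L) (p : Prop) (h1 : p → a ≤ x) (h2 : ¬ p → a ≤ x → x ≤ b) :
    ∃ d : Doubling a b, d.proj = x ∧ (d.flag ↔ p) := by
  classical
  by_cases hx : a ≤ x ∧ x ≤ b
  · refine ⟨.dbl x hx (decide p), rfl, ?_⟩
    change decide p = true ↔ p
    exact decide_eq_true_iff
  · refine ⟨.out x hx, rfl, ?_⟩
    change a ≤ x ↔ p
    refine ⟨fun h => ?_, h1⟩
    by_contra hp
    exact hx ⟨h, h2 hp h⟩

end Doubling

theorem semidistributive_of_doubling {L M : Type u} [Lattice L] [Lattice M] {a b : L}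
    (e : M ≃o Doubling a b) (hL : Semidistributive L) : Semidistributive M := by
  let p : M → L := fun x => (e x).proj
  let f : M → Prop := fun x => (e x).flag
  have H1 : ∀ x y : M, x ≤ y ↔ p x ≤ p y ∧ (f x → f y) := fun x y => by
    rw [← e.le_iff_le]; exact Doubling.le_iff
  have H2 : ∀ x : M, f x → a ≤ p x := fun x h => Doubling.flag_true h
  have H3 : ∀ x : M, ¬ f x → a ≤ p x → p x ≤ b := fun x h h' => Doubling.flag_false h h'
  have H4 : ∀ (l : L) (q : Prop), (q → a ≤ l) → (¬ q → a ≤ l → l ≤ b) →
      ∃ x : M, p x = l ∧ (f x ↔ q) := by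
    intro l q h1 h2
    obtain ⟨d, hd1, hd2⟩ := Doubling.exists_of (a := a) (b := b) l q h1 h2
    refine ⟨e.symm d, ?_, ?_⟩
    · change (e (e.symm d)).proj = l
      rw [OrderIso.apply_symm_apply]; exact hd1
    · change (e (e.symm d)).flag ↔ q
      rw [OrderIso.apply_symm_apply]; exact hd2
  have Hext : ∀ x y : M, p x = p y → (f x ↔ f y) → x = y := by
    intro x y h1 h2
    exact le_antisymm ((H1 x y).mpr ⟨h1.le, h2.mp⟩) ((H1 y x).mpr ⟨h1.ge, h2.mpr⟩)
  have Hinf : ∀ x y : M, p (x ⊓ y) = p x ⊓ p y ∧ (f (x ⊓ y) ↔ f x ∧ f y) := by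
    intro x y
    obtain ⟨z, hz1, hz2⟩ := H4 (p x ⊓ p y) (f x ∧ f y)
      (fun h => le_inf (H2 x h.1) (H2 y h.2)) (fun h h' => by
        by_cases hx : f x
        · have hy : ¬ f y := fun hy => h ⟨hx, hy⟩
          exact inf_le_right.trans (H3 y hy (h'.trans inf_le_right))
        · exact inf_le_left.trans (H3 x hx (h'.trans inf_le_left)))
    have h1 : z ≤ x ⊓ y := le_inf
      ((H1 _ _).mpr ⟨hz1.le.trans inf_le_left, fun h => (hz2.mp h).1⟩)
      ((H1 _ _).mpr ⟨hz1.le.trans inf_le_right, fun h => (hz2.mp h).2⟩)
    have h2 := (H1 _ _).mp h1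
    have h3 := (H1 _ _).mp (inf_le_left : x ⊓ y ≤ x)
    have h4 := (H1 _ _).mp (inf_le_right : x ⊓ y ≤ y)
    refine ⟨le_antisymm (le_inf h3.1 h4.1) (hz1.ge.trans h2.1), fun h => ⟨h3.2 h, h4.2 h⟩,
      fun h => h2.2 (hz2.mpr h)⟩
  have Hsup : ∀ x y : M, p (x ⊔ y) = p x ⊔ p y ∧
      (f (x ⊔ y) ↔ (f x ∨ f y ∨ (a ≤ p x ⊔ p y ∧ ¬ p x ⊔ p y ≤ b))) := by
    intro x y
    obtain ⟨z, hz1, hz2⟩ := H4 (p x ⊔ p y) (f x ∨ f y ∨ (a ≤ p x ⊔ p y ∧ ¬ p x ⊔ p y ≤ b))
      (fun h => by
        rcases h with h | h | h
        · exact (H2 x h).trans le_sup_left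
        · exact (H2 y h).trans le_sup_right
        · exact h.1)
      (fun h h' => by
        by_contra hb
        exact h (Or.inr (Or.inr ⟨h', hb⟩)))
    have h1 : x ⊔ y ≤ z := sup_le
      ((H1 _ _).mpr ⟨le_sup_left.trans hz1.ge, fun h => hz2.mpr (Or.inl h)⟩)
      ((H1 _ _).mpr ⟨le_sup_right.trans hz1.ge, fun h => hz2.mpr (Or.inr (Or.inl h))⟩)
    have h2 := (H1 _ _).mp h1
    have h3 := (H1 _ _).mp (le_sup_left : x ≤ x ⊔ y)
    have h4 := (H1 _ _).mp (le_sup_right : y ≤ x ⊔ y)
    have h5 : p (x ⊔ y) = p x ⊔ p y := le_antisymm (h2.1.trans hz1.le) (sup_le h3.1 h4.1)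
    refine ⟨h5, fun h => hz2.mp (h2.2 h), fun h => ?_⟩
    rcases h with h | h | h
    · exact h3.2 h
    · exact h4.2 h
    · by_contra hf
      have h6 := H3 (x ⊔ y) hf
      rw [h5] at h6
      exact h.2 (h6 h.1)
  intro x y z
  obtain ⟨hL1, hL2⟩ := hL (p x) (p y) (p z)
  constructor
  · intro h
    have hp : p x ⊔ p y = p x ⊔ p z := by rw [← (Hsup x y).1, ← (Hsup x z).1, h]
    have hp' := hL1 hp
    apply Hext
    · rw [(Hsup _ _).1, (Hsup _ _).1, (Hinf _ _).1]; exact hp'
    · rw [(Hsup _ _).2, (Hsup _ _).2, (Hinf _ _).1, (Hinf _ _).2, ← hp']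
      have h7 : (f x ∨ f y ∨ (a ≤ p x ⊔ p y ∧ ¬ p x ⊔ p y ≤ b)) ↔
          (f x ∨ f z ∨ (a ≤ p x ⊔ p z ∧ ¬ p x ⊔ p z ≤ b)) := by
        rw [← (Hsup x y).2, ← (Hsup x z).2, h]
      rw [← hp] at h7
      tauto
  · intro h
    have hp : p x ⊓ p y = p x ⊓ p z := by rw [← (Hinf x y).1, ← (Hinf x z).1, h]
    have hp' := hL2 hp
    apply Hext
    · rw [(Hinf _ _).1, (Hinf _ _).1, (Hsup _ _).1]; exact hp'
    · rw [(Hinf _ _).2, (Hinf _ _).2, (Hsup _ _).2]
      have h7 : (f x ∧ f y) ↔ (f x ∧ f z) := by
        rw [← (Hinf x y).2, ← (Hinf x z).2, h]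
      constructor
      · rintro ⟨h8, h9⟩
        exact ⟨h8, Or.inl h9⟩
      · rintro ⟨h8, h9 | h9 | ⟨h9, h10⟩⟩
        · exact ⟨h8, h9⟩
        · exact h7.mpr ⟨h8, h9⟩
        · by_contra hcon
          have hy : ¬ f y := fun hy => hcon ⟨h8, hy⟩
          have hz : ¬ f z := fun hz => hcon (h7.mpr ⟨h8, hz⟩)
          have h11 : a ≤ p x ⊓ p y := by
            rw [hp']; exact le_inf (H2 x h8) h9
          have h12 : a ≤ p x ⊓ p z := hp ▸ h11
          exact h10 (sup_le (H3 y hy (h11.trans inf_le_right)) (H3 z hz (h12.trans inf_le_right)))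

theorem CongruenceUniform.semidistributive {L : Type u} [Lattice L] (h : CongruenceUniform L) :
    Semidistributive L := by
  induction h with
  | one L =>
    intro x y z
    exact ⟨fun _ => Subsingleton.elim _ _, fun _ => Subsingleton.elim _ _⟩
  | double L M a b hab e hL ih => exact semidistributive_of_doubling e ih

/-! ## Products with the two-element chain -/

theorem hasseDegree_prod {L : Type u} [PartialOrder L] [Finite L] (x : L) (i : Bool) :
    hasseDegree ((x, i) : L × Bool) = hasseDegree x + 1 := by
  have hft : (false : Bool) ⋖ true := by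
    refine ⟨by decide, ?_⟩
    intro c h1 h2
    cases c
    · exact absurd h1 (lt_irrefl _)
    · exact absurd h2 (lt_irrefl _)
  have hb : ∀ c d : Bool, c ⋖ d ↔ c = false ∧ d = true := by
    intro c d
    constructor
    · intro h
      have := h.lt
      cases c <;> cases d <;> first | exact ⟨rfl, rfl⟩ | exact absurd this (by decide)
    · rintro ⟨rfl, rfl⟩
      exact hft
  have hdn : {y : L × Bool | y ⋖ (x, i)} =
      (fun z => (z, i)) '' {y : L | y ⋖ x} ∪ (if i = true then {(x, false)} else ∅) := by
    ext ⟨y, j⟩
    simp only [Set.mem_ofPred_eq, Prod.mk_covBy_mk_iff, Set.mem_union, Set.mem_image, Prod.mk.injEq,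
      hb]
    cases i <;> cases j <;> simp [Prod.ext_iff]
  have hup : {y : L × Bool | (x, i) ⋖ y} =
      (fun z => (z, i)) '' {y : L | x ⋖ y} ∪ (if i = true then ∅ else {(x, true)}) := by
    ext ⟨y, j⟩
    simp only [Set.mem_ofPred_eq, Prod.mk_covBy_mk_iff, Set.mem_union, Set.mem_image, Prod.mk.injEq,
      hb]
    cases i <;> cases j <;> simp [Prod.ext_iff, eq_comm]
  have hinj : Function.Injective (fun z : L => (z, i)) := fun z w h => (Prod.ext_iff.mp h).1
  unfold hasseDegree
  rw [hdn, hup]
  cases i
  · rw [if_neg (by decide), if_neg (by decide), Set.union_empty,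
      Set.ncard_image_of_injective _ hinj, Set.union_singleton, Set.ncard_insert_of_notMem,
      Set.ncard_image_of_injective _ hinj]
    · omega
    · rintro ⟨z, _, hz⟩
      simp at hz
  · rw [if_pos rfl, if_pos rfl, Set.union_empty,
      Set.ncard_image_of_injective _ hinj, Set.union_singleton, Set.ncard_insert_of_notMem,
      Set.ncard_image_of_injective _ hinj]
    · omega
    · rintro ⟨z, _, hz⟩
      simp at hz

theorem congruenceUniform_prod {L : Type u} [Lattice L] {a b : L} (hab : ∀ x, a ≤ x ∧ x ≤ b)
    (h : CongruenceUniform L) : CongruenceUniform (L × Bool) := by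
  let e : L × Bool ≃ Doubling a b :=
    { toFun := fun x => Doubling.dbl x.1 (hab x.1) x.2
      invFun := fun d => match d with
        | .out x _ => (x, false)
        | .dbl x _ i => (x, i)
      left_inv := fun x => rfl
      right_inv := fun d => by
        cases d with
        | out x hx => exact absurd (hab x) hx
        | dbl x hx i => rfl }
  refine CongruenceUniform.double L (L × Bool) a b (hab a).2 ⟨e, ?_⟩ h
  intro x y
  change (x.1 ≤ y.1 ∧ x.2 ≤ y.2) ↔ x ≤ y
  exact Prod.le_def.symm

theorem crit_prod {L : Type u} [PartialOrder L] {a b : L} (hab : ∀ x, a ≤ x ∧ x ≤ b) {n : ℕ}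
    (h : Crit L n) : Crit (L × Bool) (n + 1) := by
  classical
  obtain ⟨ι, j, m, hjm, hc⟩ := h
  refine ⟨Option ι, fun o => o.elim (a, true) (fun i => (j i, false)),
    fun o => o.elim (b, false) (fun i => (m i, true)), ?_, ?_⟩
  · intro o
    cases o with
    | none =>
      rintro ⟨_, h⟩
      have h' : (true : Bool) ≤ false := h
      revert h'
      decide
    | some i => intro h; exact hjm i h.1
  · intro c
    by_cases hex : ∃ i, c (some i) = c none
    · obtain ⟨i, hi⟩ := hex
      exact ⟨some i, none, hi, ⟨(hab _).2, by simp⟩, ⟨(hab _).1, by simp⟩⟩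
    · push Not at hex
      -- remove the colour of `none`
      have h1 : ∀ i, ∃ d : Fin n, (c none).succAbove d = c (some i) := fun i =>
        Fin.exists_succAbove_eq (hex i)
      choose d hd using h1
      obtain ⟨i, i', h2, h3, h4⟩ := hc d
      refine ⟨some i, some i', ?_, ⟨h3, by simp⟩, ⟨h4, by simp⟩⟩
      rw [← hd i, ← hd i', h2]

/-! ## Families of bit masks -/

/-- Inclusion of bit masks. -/
def sub (x y : ℕ) : Bool := Nat.beq (Nat.land x y) x

theorem sub_iff {x y : ℕ} : sub x y = true ↔ x &&& y = x := by
  unfold sub
  rw [Nat.beq_eq]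
  rfl

theorem bit_eq_bit {i j : Bool} {x y : ℕ} : Nat.bit i x = Nat.bit j y ↔ i = j ∧ x = y := by
  rw [Nat.bit_val, Nat.bit_val]
  cases i <;> cases j <;> simp <;> omega

theorem sub_refl (x : ℕ) : sub x x = true := sub_iff.mpr (Nat.and_self x)

theorem sub_trans {x y z : ℕ} (h1 : sub x y = true) (h2 : sub y z = true) : sub x z = true := by
  rw [sub_iff] at *
  rw [← h1, Nat.and_assoc, h2]

theorem sub_antisymm {x y : ℕ} (h1 : sub x y = true) (h2 : sub y x = true) : x = y := by
  rw [sub_iff] at *
  rw [← h1, Nat.and_comm, h2]

theorem sub_and_left (x y : ℕ) : sub (x &&& y) x = true := by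
  rw [sub_iff, Nat.and_right_comm, Nat.and_self]

theorem sub_and_right (x y : ℕ) : sub (x &&& y) y = true := by
  rw [sub_iff, Nat.and_assoc, Nat.and_self]

theorem sub_and {x y z : ℕ} (h1 : sub z x = true) (h2 : sub z y = true) :
    sub z (x &&& y) = true := by
  rw [sub_iff] at *
  rw [← Nat.and_assoc, h1, h2]

theorem sub_bit {i j : Bool} {x y : ℕ} :
    sub (Nat.bit i x) (Nat.bit j y) = true ↔ sub x y = true ∧ (i = true → j = true) := by
  rw [sub_iff, sub_iff, Nat.land_bit, bit_eq_bit]
  cases i <;> cases j <;> simp

/-- A list of masks as a partially ordered set, ordered by inclusion of masks. -/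
structure Fam (F : List ℕ) : Type where
  val : ℕ
  mem : val ∈ F

theorem Fam.ext {F : List ℕ} {x y : Fam F} (h : x.val = y.val) : x = y := by
  cases x; cases y; cases h; rfl

instance (F : List ℕ) : PartialOrder (Fam F) where
  le x y := sub x.val y.val = true
  le_refl x := sub_refl x.val
  le_trans _ _ _ h1 h2 := sub_trans h1 h2
  le_antisymm _ _ h1 h2 := Fam.ext (sub_antisymm h1 h2)

theorem Fam.le_def {F : List ℕ} {x y : Fam F} : x ≤ y ↔ sub x.val y.val = true := Iff.rfl

instance (F : List ℕ) : Finite (Fam F) :=
  Finite.of_injective (β := {n : ℕ // n ∈ F}) (fun x => ⟨x.val, x.mem⟩) (fun x y h => by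
    apply Fam.ext
    exact congrArg Subtype.val h)

/-- The family is closed under intersection and has a largest member. -/
structure Closed (F : List ℕ) : Prop where
  inf_mem : ∀ x ∈ F, ∀ y ∈ F, x &&& y ∈ F
  top : ∃ t ∈ F, ∀ x ∈ F, sub x t = true

theorem Closed.exists_sup {F : List ℕ} (h : Closed F) (x y : Fam F) :
    ∃ s : Fam F, x ≤ s ∧ y ≤ s ∧ ∀ z : Fam F, x ≤ z → y ≤ z → s ≤ z := by
  classical
  have := Fintype.ofFinite (Fam F)
  obtain ⟨t, ht, htop⟩ := h.top
  -- induct over finite sets of upper bounds
  have key : ∀ S : Finset (Fam F), ∃ s : Fam F,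
      (∀ w : Fam F, (∀ z ∈ S, w ≤ z) → w ≤ s) ∧ ∀ z ∈ S, s ≤ z := by
    intro S
    induction S using Finset.induction_on with
    | empty => exact ⟨⟨t, ht⟩, fun w _ => htop w.val w.mem, fun z hz => absurd hz (Finset.notMem_empty _)⟩
    | insert a S ha ih =>
      obtain ⟨s, hs1, hs2⟩ := ih
      refine ⟨⟨a.val &&& s.val, h.inf_mem _ a.mem _ s.mem⟩, fun w hw => ?_, fun z hz => ?_⟩
      · exact sub_and (hw a (Finset.mem_insert_self _ _))
          (hs1 w (fun z hz => hw z (Finset.mem_insert_of_mem hz)))
      · rcases Finset.mem_insert.mp hz with rfl | hz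
        · exact sub_and_left _ _
        · exact sub_trans (sub_and_right _ _) (hs2 z hz)
  obtain ⟨s, hs1, hs2⟩ := key (Finset.univ.filter (fun z => x ≤ z ∧ y ≤ z))
  refine ⟨s, hs1 x (fun z hz => ?_), hs1 y (fun z hz => ?_), fun z hx hy => hs2 z ?_⟩
  · exact (Finset.mem_filter.mp hz).2.1
  · exact (Finset.mem_filter.mp hz).2.2
  · exact Finset.mem_filter.mpr ⟨Finset.mem_univ _, hx, hy⟩

/-- The lattice structure on a closed family. -/
@[reducible] noncomputable def Closed.lattice {F : List ℕ} (h : Closed F) : Lattice (Fam F) :=
  { (inferInstance : PartialOrder (Fam F)) with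
    inf := fun x y => ⟨x.val &&& y.val, h.inf_mem _ x.mem _ y.mem⟩
    sup := fun x y => Classical.choose (h.exists_sup x y)
    inf_le_left := fun _ _ => sub_and_left _ _
    inf_le_right := fun _ _ => sub_and_right _ _
    le_inf := fun _ _ _ h1 h2 => sub_and h1 h2
    le_sup_left := fun x y => (Classical.choose_spec (h.exists_sup x y)).1
    le_sup_right := fun x y => (Classical.choose_spec (h.exists_sup x y)).2.1
    sup_le := fun x y z h1 h2 => (Classical.choose_spec (h.exists_sup x y)).2.2 z h1 h2 }

/-- The masks of the doubling of the interval `[a, b]` in the family `F`; the new bit is the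
least significant one. -/
def dbl (a b : ℕ) : List ℕ → List ℕ
  | [] => []
  | x :: t =>
    match sub a x, sub x b with
    | false, _ => Nat.mul 2 x :: dbl a b t
    | true, false => Nat.succ (Nat.mul 2 x) :: dbl a b t
    | true, true => Nat.mul 2 x :: Nat.succ (Nat.mul 2 x) :: dbl a b t

theorem mem_dbl {a b : ℕ} {F : List ℕ} {z : ℕ} :
    z ∈ dbl a b F ↔ ∃ x ∈ F, ∃ i : Bool, z = Nat.bit i x ∧ (i = true → sub a x = true) ∧
      (i = false → sub a x = true → sub x b = true) := by
  have hb0 : ∀ x : ℕ, Nat.mul 2 x = Nat.bit false x := fun x => by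
    rw [Nat.bit_val]; rfl
  have hb1 : ∀ x : ℕ, Nat.succ (Nat.mul 2 x) = Nat.bit true x := fun x => by
    rw [Nat.bit_val]; rfl
  have key : ∀ (y : ℕ) (t : List ℕ), z ∈ dbl a b (y :: t) ↔ (∃ i : Bool, z = Nat.bit i y ∧
      (i = true → sub a y = true) ∧
      (i = false → sub a y = true → sub y b = true)) ∨ z ∈ dbl a b t := by
    intro y t
    have heq : dbl a b (y :: t) = match sub a y, sub y b with
      | false, _ => Nat.mul 2 y :: dbl a b t
      | true, false => Nat.succ (Nat.mul 2 y) :: dbl a b t
      | true, true => Nat.mul 2 y :: Nat.succ (Nat.mul 2 y) :: dbl a b t := rfl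
    rw [heq, hb1, hb0]
    rcases h1 : sub a y with _ | _
    · simp only [List.mem_cons]
      constructor
      · rintro (h | h)
        · exact Or.inl ⟨false, h, by simp, by simp⟩
        · exact Or.inr h
      · rintro (⟨i, h, h2, h3⟩ | h)
        · cases i
          · exact Or.inl h
          · simp at h2
        · exact Or.inr h
    · rcases h2 : sub y b with _ | _
      · simp only [List.mem_cons]
        constructor
        · rintro (h | h)
          · exact Or.inl ⟨true, h, by simp, by simp⟩
          · exact Or.inr h
        · rintro (⟨i, h, h3, h4⟩ | h)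
          · cases i
            · simp at h4
            · exact Or.inl h
          · exact Or.inr h
      · simp only [List.mem_cons]
        constructor
        · rintro (h | h | h)
          · exact Or.inl ⟨false, h, by simp, by simp⟩
          · exact Or.inl ⟨true, h, by simp, by simp⟩
          · exact Or.inr h
        · rintro (⟨i, h, h3, h4⟩ | h)
          · cases i
            · exact Or.inl h
            · exact Or.inr (Or.inl h)
          · exact Or.inr (Or.inr h)
  induction F with
  | nil => simp [dbl]
  | cons y t ih =>
    constructor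
    · intro hz
      rcases (key y t).mp hz with h | h
      · exact ⟨y, List.mem_cons_self, h⟩
      · obtain ⟨x, hx, h⟩ := ih.mp h
        exact ⟨x, List.mem_cons_of_mem _ hx, h⟩
    · rintro ⟨x, hx, h⟩
      rcases List.mem_cons.mp hx with rfl | hx
      · exact (key x t).mpr (Or.inl h)
      · exact (key y t).mpr (Or.inr (ih.mpr ⟨x, hx, h⟩))

theorem closed_dbl {a b : ℕ} {F : List ℕ} (h : Closed F) : Closed (dbl a b F) := by
  constructor
  · intro x hx y hy
    rw [mem_dbl] at hx hy ⊢
    obtain ⟨x', hx', i, rfl, hi1, hi2⟩ := hx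
    obtain ⟨y', hy', j, rfl, hj1, hj2⟩ := hy
    refine ⟨x' &&& y', h.inf_mem _ hx' _ hy', i && j, Nat.land_bit _ _ _ _, ?_, ?_⟩
    · intro hij
      rw [Bool.and_eq_true] at hij
      exact sub_and (hi1 hij.1) (hj1 hij.2)
    · intro hij hs
      rcases Bool.and_eq_false_iff.mp hij with h0 | h0
      · exact sub_trans (sub_and_left _ _) (hi2 h0 (sub_trans hs (sub_and_left _ _)))
      · exact sub_trans (sub_and_right _ _) (hj2 h0 (sub_trans hs (sub_and_right _ _)))
  · obtain ⟨t, ht, htop⟩ := h.top
    refine ⟨Nat.bit (sub a t) t, ?_, ?_⟩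
    · rw [mem_dbl]
      refine ⟨t, ht, sub a t, rfl, fun h => h, fun h h' => ?_⟩
      rw [h] at h'
      exact absurd h' (by simp)
    · intro x hx
      rw [mem_dbl] at hx
      obtain ⟨x', hx', i, rfl, hi1, hi2⟩ := hx
      exact sub_bit.mpr ⟨htop x' hx', fun hi => sub_trans (hi1 hi) (htop x' hx')⟩

/-- The map from the doubling to the doubled family. -/
def dblMap {F : List ℕ} (a b : Fam F) : Doubling a b → Fam (dbl a.val b.val F)
  | .out x _ => ⟨Nat.bit (sub a.val x.val) x.val, mem_dbl.mpr ⟨x.val, x.mem, _, rfl,
      fun h' => h', fun h1 h2 => absurd (h1.symm.trans h2) Bool.false_ne_true⟩⟩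
  | .dbl x h i => ⟨Nat.bit i x.val, mem_dbl.mpr ⟨x.val, x.mem, _, rfl,
      fun _ => h.1, fun _ _ => h.2⟩⟩

theorem dblMap_val {F : List ℕ} {a b : Fam F} (d : Doubling a b) :
    ∃ i : Bool, (dblMap a b d).val = Nat.bit i d.proj.val ∧ (i = true ↔ d.flag) := by
  cases d with
  | out x h => exact ⟨sub a.val x.val, rfl, Iff.rfl⟩
  | dbl x h i => exact ⟨i, rfl, Iff.rfl⟩

theorem dblMap_le_iff {F : List ℕ} {a b : Fam F} (d d' : Doubling a b) :
    dblMap a b d ≤ dblMap a b d' ↔ d ≤ d' := by
  obtain ⟨i, hi, hi'⟩ := dblMap_val d
  obtain ⟨j, hj, hj'⟩ := dblMap_val d'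
  rw [Fam.le_def, hi, hj, sub_bit, Doubling.le_iff, hi', hj']
  rfl

theorem dblMap_injective {F : List ℕ} {a b : Fam F} : Function.Injective (dblMap a b) := by
  intro d d' h
  obtain ⟨i, hi, hi'⟩ := dblMap_val d
  obtain ⟨j, hj, hj'⟩ := dblMap_val d'
  have h1 := congrArg Fam.val h
  rw [hi, hj, bit_eq_bit] at h1
  have hp : d.proj = d'.proj := Fam.ext h1.2
  have hf : d.flag ↔ d'.flag := by rw [← hi', ← hj', h1.1]
  cases d with
  | out x hx =>
    cases d' with
    | out y hy => cases (hp : x = y); rfl
    | dbl y hy j' => cases (hp : x = y); exact absurd hy hx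
  | dbl x hx i' =>
    cases d' with
    | out y hy => cases (hp : x = y); exact absurd hx hy
    | dbl y hy j' =>
      cases (hp : x = y)
      have hf' : i' = true ↔ j' = true := hf
      have : i' = j' := by cases i' <;> cases j' <;> simp_all
      cases this
      rfl

theorem dblMap_surjective {F : List ℕ} {a b : Fam F} : Function.Surjective (dblMap a b) := by
  intro z
  obtain ⟨x, hx, i, hz, hi1, hi2⟩ := mem_dbl.mp z.mem
  by_cases h : a ≤ ⟨x, hx⟩ ∧ (⟨x, hx⟩ : Fam F) ≤ b
  · refine ⟨.dbl ⟨x, hx⟩ h i, Fam.ext ?_⟩
    rw [hz]
    rfl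
  · refine ⟨.out ⟨x, hx⟩ h, Fam.ext ?_⟩
    rw [hz]
    change Nat.bit (sub a.val x) x = Nat.bit i x
    congr 1
    cases i with
    | true => exact hi1 rfl
    | false =>
      by_contra hcon
      have h1 : sub a.val x = true := by
        revert hcon
        cases sub a.val x <;> simp
      exact h ⟨h1, hi2 rfl h1⟩

theorem congruenceUniform_dbl {F : List ℕ} (h : Closed F) (a b : Fam F) (hab : a ≤ b)
    (hF : @CongruenceUniform (Fam F) h.lattice) :
    @CongruenceUniform (Fam (dbl a.val b.val F)) (closed_dbl h).lattice := by
  let e : Fam (dbl a.val b.val F) ≃o Doubling a b :=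
    { toEquiv := (Equiv.ofBijective (dblMap a b) ⟨dblMap_injective, dblMap_surjective⟩).symm
      map_rel_iff' := by
        intro x y
        obtain ⟨d, rfl⟩ := dblMap_surjective x
        obtain ⟨d', rfl⟩ := dblMap_surjective y
        rw [dblMap_le_iff]
        have h1 : ∀ d, (Equiv.ofBijective (dblMap a b) ⟨dblMap_injective, dblMap_surjective⟩).symm
            (dblMap a b d) = d := fun d => Equiv.symm_apply_apply
              (Equiv.ofBijective (dblMap a b) ⟨dblMap_injective, dblMap_surjective⟩) d
        rw [h1, h1] }
  exact @CongruenceUniform.double (Fam F) (Fam (dbl a.val b.val F)) h.lattice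
    (closed_dbl h).lattice a b hab e hF

/-- Membership test. -/
def elem (x : ℕ) : List ℕ → Bool
  | [] => false
  | y :: t => match Nat.beq x y with
    | true => true
    | false => elem x t

theorem mem_of_elem {x : ℕ} {F : List ℕ} (h : elem x F = true) : x ∈ F := by
  induction F with
  | nil => simp [elem] at h
  | cons y t ih =>
    unfold elem at h
    rcases hxy : Nat.beq x y with _ | _
    · rw [hxy] at h
      exact List.mem_cons_of_mem _ (ih h)
    · rw [Nat.beq_eq.mp hxy]
      exact List.mem_cons_self

/-- Perform a list of doublings, the last one first; return `none` if an interval is not one. -/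
def run : List (ℕ × ℕ) → Option (List ℕ)
  | [] => some [0]
  | (a, b) :: t =>
    match run t with
    | none => none
    | some F =>
      match elem a F && elem b F && sub a b with
      | false => none
      | true => some (dbl a b F)

theorem closed_singleton : Closed [0] := by
  constructor
  · intro x hx y hy
    simp only [List.mem_singleton] at hx hy ⊢
    rw [hx, hy]
    rfl
  · exact ⟨0, List.mem_singleton.mpr rfl, fun x hx => by
      rw [List.mem_singleton.mp hx]
      exact sub_refl 0⟩

theorem run_spec (l : List (ℕ × ℕ)) : ∀ F : List ℕ, run l = some F →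
    ∃ h : Closed F, @CongruenceUniform (Fam F) h.lattice := by
  induction l with
  | nil =>
    intro F hF
    have hF' : [0] = F := Option.some.inj hF
    subst hF'
    refine ⟨closed_singleton, ?_⟩
    have hu : ∀ x : Fam [0], x = ⟨0, List.mem_singleton.mpr rfl⟩ := fun x =>
      Fam.ext (List.mem_singleton.mp x.mem)
    let this : Unique (Fam [0]) := ⟨⟨⟨0, List.mem_singleton.mpr rfl⟩⟩, hu⟩
    exact @CongruenceUniform.one (Fam [0]) closed_singleton.lattice this
  | cons p t ih =>
    obtain ⟨a, b⟩ := p
    intro F hF
    unfold run at hF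
    rcases ht : run t with _ | G
    · rw [ht] at hF
      simp at hF
    · rw [ht] at hF
      obtain ⟨hG, hCU⟩ := ih G ht
      simp only at hF
      rcases hc : (elem a G && elem b G && sub a b) with _ | _
      · rw [hc] at hF
        simp at hF
      · rw [hc] at hF
        have hF' : dbl a b G = F := Option.some.inj hF
        subst hF'
        rw [Bool.and_eq_true, Bool.and_eq_true] at hc
        obtain ⟨⟨ha, hb⟩, hab⟩ := hc
        exact ⟨closed_dbl hG, congruenceUniform_dbl hG ⟨a, mem_of_elem ha⟩ ⟨b, mem_of_elem hb⟩
          hab hCU⟩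

/-! ## Counting covers in a family -/

/-- Insert into a list of minimal elements. -/
def ins (le : ℕ → ℕ → Bool) (y : ℕ) (acc : List ℕ) : List ℕ :=
  match acc.any (fun z => le z y) with
  | true => acc
  | false => y :: acc.filter (fun z => !le y z)

/-- The minimal elements of a list. -/
def mins (le : ℕ → ℕ → Bool) : List ℕ → List ℕ
  | [] => []
  | y :: t => ins le y (mins le t)

theorem mins_spec {le : ℕ → ℕ → Bool} (hrefl : ∀ x, le x x = true)
    (htrans : ∀ x y z, le x y = true → le y z = true → le x z = true) (G : List ℕ) :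
    (∀ z ∈ mins le G, z ∈ G) ∧ (∀ y ∈ G, ∃ z ∈ mins le G, le z y = true) ∧
      (mins le G).Pairwise (fun z z' => le z z' = false ∧ le z' z = false) := by
  induction G with
  | nil => exact ⟨fun z hz => hz, fun y hy => absurd hy (by simp), List.Pairwise.nil⟩
  | cons y t ih =>
    obtain ⟨h1, h2, h3⟩ := ih
    have heq : mins le (y :: t) = ins le y (mins le t) := rfl
    rw [heq]
    unfold ins
    rcases hany : (mins le t).any (fun z => le z y) with _ | _
    · simp only [List.any_eq_false, Bool.not_eq_true] at hany
      simp only [List.mem_cons, List.mem_filter, Bool.not_eq_true', List.pairwise_cons]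
      refine ⟨?_, ?_, ?_, ?_⟩
      · rintro z (rfl | ⟨hz, -⟩)
        · exact Or.inl rfl
        · exact Or.inr (h1 z hz)
      · rintro w (rfl | hw)
        · exact ⟨w, Or.inl rfl, hrefl w⟩
        · obtain ⟨z, hz, hzw⟩ := h2 w hw
          rcases hyz : le y z with _ | _
          · exact ⟨z, Or.inr ⟨hz, hyz⟩, hzw⟩
          · exact ⟨y, Or.inl rfl, htrans _ _ _ hyz hzw⟩
      · rintro z ⟨hz, hyz⟩
        exact ⟨hyz, hany z hz⟩
      · exact h3.filter _
    · simp only [List.any_eq_true] at hany
      obtain ⟨z, hz, hzy⟩ := hany
      refine ⟨fun z hz => List.mem_cons_of_mem _ (h1 z hz), ?_, h3⟩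
      intro w hw
      rcases List.mem_cons.mp hw with rfl | hw
      · exact ⟨z, hz, hzy⟩
      · exact h2 w hw

/-- The members strictly above `x`. -/
def above (F : List ℕ) (x : ℕ) : List ℕ := F.filter (fun y => sub x y && !Nat.beq x y)

/-- The members strictly below `x`. -/
def below (F : List ℕ) (x : ℕ) : List ℕ := F.filter (fun y => sub y x && !Nat.beq x y)

theorem beq_false_iff {x y : ℕ} : Nat.beq x y = false ↔ x ≠ y := by
  rw [← Bool.not_eq_true, Nat.beq_eq]

theorem Fam.lt_iff {F : List ℕ} {x y : Fam F} : x < y ↔ sub x.val y.val = true ∧ x.val ≠ y.val := by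
  rw [lt_iff_le_and_ne, Fam.le_def]
  constructor
  · rintro ⟨h1, h2⟩
    exact ⟨h1, fun h => h2 (Fam.ext h)⟩
  · rintro ⟨h1, h2⟩
    exact ⟨h1, fun h => h2 (congrArg Fam.val h)⟩

theorem covBy_iff_above {F : List ℕ} {x y : Fam F} :
    x ⋖ y ↔ y.val ∈ mins sub (above F x.val) := by
  obtain ⟨h1, h2, h3⟩ := mins_spec (le := sub) sub_refl (fun _ _ _ => sub_trans) (above F x.val)
  have hab : ∀ z, z ∈ above F x.val ↔ z ∈ F ∧ sub x.val z = true ∧ x.val ≠ z := by
    intro z
    rw [above, List.mem_filter, Bool.and_eq_true, Bool.not_eq_true', beq_false_iff]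
  constructor
  · intro h
    have hlt := Fam.lt_iff.mp h.lt
    obtain ⟨z, hz, hzy⟩ := h2 y.val ((hab _).mpr ⟨y.mem, hlt⟩)
    obtain ⟨hzF, hxz⟩ := (hab z).mp (h1 z hz)
    have hxz' : x < (⟨z, hzF⟩ : Fam F) := Fam.lt_iff.mpr hxz
    have hzy' : (⟨z, hzF⟩ : Fam F) ≤ y := hzy
    have : (⟨z, hzF⟩ : Fam F) = y := by
      by_contra hne
      exact h.2 hxz' (lt_of_le_of_ne hzy' hne)
    rw [← this]
    exact hz
  · intro h
    obtain ⟨hyF, hxy⟩ := (hab y.val).mp (h1 _ h)
    refine ⟨Fam.lt_iff.mpr hxy, ?_⟩
    intro c hxc hcy
    obtain ⟨z, hz, hzc⟩ := h2 c.val ((hab _).mpr ⟨c.mem, Fam.lt_iff.mp hxc⟩)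
    have hcy' := Fam.lt_iff.mp hcy
    have hzy : sub z y.val = true := sub_trans hzc hcy'.1
    have hne : z ≠ y.val := by
      rintro rfl
      exact hcy'.2 (sub_antisymm hcy'.1 hzc)
    have hsymm : Std.Symm (fun z z' => sub z z' = false ∧ sub z' z = false) :=
      ⟨fun _ _ h => ⟨h.2, h.1⟩⟩
    have h4 := h3.forall hz h hne
    rw [h4.1] at hzy
    exact Bool.false_ne_true hzy

theorem covBy_iff_below {F : List ℕ} {x y : Fam F} :
    y ⋖ x ↔ y.val ∈ mins (fun z w => sub w z) (below F x.val) := by
  obtain ⟨h1, h2, h3⟩ := mins_spec (le := fun z w => sub w z) sub_refl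
    (fun _ _ _ ha hb => sub_trans hb ha) (below F x.val)
  have hab : ∀ z, z ∈ below F x.val ↔ z ∈ F ∧ sub z x.val = true ∧ x.val ≠ z := by
    intro z
    rw [below, List.mem_filter, Bool.and_eq_true, Bool.not_eq_true', beq_false_iff]
  constructor
  · intro h
    have hlt := Fam.lt_iff.mp h.lt
    obtain ⟨z, hz, hzy⟩ := h2 y.val ((hab _).mpr ⟨y.mem, hlt.1, fun h => hlt.2 h.symm⟩)
    obtain ⟨hzF, hxz⟩ := (hab z).mp (h1 z hz)
    have hxz' : (⟨z, hzF⟩ : Fam F) < x := Fam.lt_iff.mpr ⟨hxz.1, fun h => hxz.2 h.symm⟩
    have hzy' : y ≤ (⟨z, hzF⟩ : Fam F) := hzy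
    have : y = (⟨z, hzF⟩ : Fam F) := by
      by_contra hne
      exact h.2 (lt_of_le_of_ne hzy' hne) hxz'
    rw [this]
    exact hz
  · intro h
    obtain ⟨hyF, hxy⟩ := (hab y.val).mp (h1 _ h)
    refine ⟨Fam.lt_iff.mpr ⟨hxy.1, fun h => hxy.2 h.symm⟩, ?_⟩
    intro c hyc hcx
    have hcx' := Fam.lt_iff.mp hcx
    obtain ⟨z, hz, hzc⟩ := h2 c.val ((hab _).mpr ⟨c.mem, hcx'.1, fun h => hcx'.2 h.symm⟩)
    have hyc' := Fam.lt_iff.mp hyc
    have hzc' : sub c.val z = true := hzc
    have hzy : sub y.val z = true := sub_trans hyc'.1 hzc'
    have hne : z ≠ y.val := by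
      rintro rfl
      exact hyc'.2 (sub_antisymm hyc'.1 hzc')
    have hsymm : Std.Symm (fun z z' => (fun z w => sub w z) z z' = false ∧
      (fun z w => sub w z) z' z = false) := ⟨fun _ _ h => ⟨h.2, h.1⟩⟩
    have h4 := h3.forall hz h hne
    have h5 : sub y.val z = false := h4.1
    rw [h5] at hzy
    exact Bool.false_ne_true hzy

theorem ncard_fam {F : List ℕ} {l : List ℕ} (hl : l.Nodup) {S : Set (Fam F)}
    (hS : ∀ y : Fam F, y ∈ S ↔ y.val ∈ l) (hl' : ∀ z ∈ l, z ∈ F) : S.ncard = l.length := by
  classical
  have h1 : (Fam.val '' S) = ((l.toFinset : Finset ℕ) : Set ℕ) := by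
    ext z
    simp only [Set.mem_image, List.coe_toFinset]
    constructor
    · rintro ⟨y, hy, rfl⟩
      exact (hS y).mp hy
    · intro hz
      exact ⟨⟨z, hl' z hz⟩, (hS _).mpr hz, rfl⟩
  rw [← Set.ncard_image_of_injective S (fun x y h => Fam.ext h : Function.Injective Fam.val), h1,
    Set.ncard_coe_finset, List.toFinset_card_of_nodup hl]

theorem nodup_mins {le : ℕ → ℕ → Bool} (hrefl : ∀ x, le x x = true)
    (htrans : ∀ x y z, le x y = true → le y z = true → le x z = true) (G : List ℕ) :
    (mins le G).Nodup := by
  refine (mins_spec hrefl htrans G).2.2.imp ?_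
  rintro a b ⟨h1, -⟩ rfl
  rw [hrefl a] at h1
  exact Bool.false_ne_true h1.symm

theorem hasseDegree_fam {F : List ℕ} (x : Fam F) :
    hasseDegree x = Nat.add (mins (fun z w => sub w z) (below F x.val)).length
      (mins sub (above F x.val)).length := by
  have h1 := mins_spec (le := sub) sub_refl (fun _ _ _ => sub_trans) (above F x.val)
  have h2 := mins_spec (le := fun z w => sub w z) sub_refl
    (fun _ _ _ ha hb => sub_trans hb ha) (below F x.val)
  have h3 := ncard_fam (F := F) (nodup_mins (le := fun z w => sub w z) sub_refl
    (fun _ _ _ ha hb => sub_trans hb ha) (below F x.val)) (S := {y | y ⋖ x})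
    (fun y => covBy_iff_below) (fun z hz => (List.mem_filter.mp (h2.1 z hz)).1)
  have h4 := ncard_fam (F := F) (nodup_mins (le := sub) sub_refl (fun _ _ _ => sub_trans)
    (above F x.val)) (S := {y | x ⋖ y})
    (fun y => covBy_iff_above) (fun z hz => (List.mem_filter.mp (h1.1 z hz)).1)
  unfold hasseDegree
  rw [h3, h4]
  rfl

/-- Every member has Hasse degree four. -/
def degreeCheck (F : List ℕ) : Bool :=
  F.all (fun x => Nat.beq (Nat.add (mins (fun z w => sub w z) (below F x)).length
    (mins sub (above F x)).length) 4)

theorem hasseRegular_of_check {F : List ℕ} (h : degreeCheck F = true) :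
    HasseRegular 4 (Fam F) := by
  intro x
  have h1 := List.all_eq_true.mp h x.val x.mem
  rw [hasseDegree_fam]
  exact Nat.eq_of_beq_eq_true h1

/-! ## Refuting colourings -/

/-- Two critical pairs form an alternating cycle. -/
def adj (p q : ℕ × ℕ) : Bool := sub p.1 q.2 && sub q.1 p.2

/-- Exhaustive search: every assignment of the vertices of the list to the four colour classes
creates an adjacent pair in one class. -/
def refute : List (ℕ × ℕ) → List (ℕ × ℕ) → List (ℕ × ℕ) → List (ℕ × ℕ) → List (ℕ × ℕ) → Bool
  | [], _, _, _, _ => false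
  | v :: r, A, B, C, D =>
    (A.any (adj v) || refute r (v :: A) B C D) && ((B.any (adj v) || refute r A (v :: B) C D) &&
    ((C.any (adj v) || refute r A B (v :: C) D) && (D.any (adj v) || refute r A B C (v :: D))))

theorem refute_spec (V : List (ℕ × ℕ)) (f : ℕ × ℕ → Fin 4) : ∀ r A B C D : List (ℕ × ℕ),
    refute r A B C D = true → (∀ v ∈ r, v ∈ V) → (∀ v ∈ A, v ∈ V ∧ f v = 0) →
    (∀ v ∈ B, v ∈ V ∧ f v = 1) → (∀ v ∈ C, v ∈ V ∧ f v = 2) → (∀ v ∈ D, v ∈ V ∧ f v = 3) →
    ∃ p ∈ V, ∃ q ∈ V, f p = f q ∧ adj p q = true := by
  intro r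
  induction r with
  | nil => intro A B C D h; simp [refute] at h
  | cons v r ih =>
    intro A B C D h hr hA hB hC hD
    unfold refute at h
    simp only [Bool.and_eq_true, Bool.or_eq_true, List.any_eq_true] at h
    obtain ⟨h0, h1, h2, h3⟩ := h
    have hv : v ∈ V := hr v List.mem_cons_self
    have hr' : ∀ w ∈ r, w ∈ V := fun w hw => hr w (List.mem_cons_of_mem _ hw)
    have hf : f v = 0 ∨ f v = 1 ∨ f v = 2 ∨ f v = 3 := by
      generalize f v = c
      revert c
      decide
    have hcons : ∀ (c : Fin 4) (E : List (ℕ × ℕ)), f v = c → (∀ w ∈ E, w ∈ V ∧ f w = c) →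
        ∀ w ∈ v :: E, w ∈ V ∧ f w = c := by
      intro c E hc hE w hw
      rcases List.mem_cons.mp hw with rfl | hw
      · exact ⟨hv, hc⟩
      · exact hE w hw
    rcases hf with hf | hf | hf | hf
    · rcases h0 with ⟨x, hx, hvx⟩ | h0
      · exact ⟨v, hv, x, (hA x hx).1, by rw [hf, (hA x hx).2], hvx⟩
      · exact ih _ _ _ _ h0 hr' (hcons 0 A hf hA) hB hC hD
    · rcases h1 with ⟨x, hx, hvx⟩ | h1
      · exact ⟨v, hv, x, (hB x hx).1, by rw [hf, (hB x hx).2], hvx⟩
      · exact ih _ _ _ _ h1 hr' hA (hcons 1 B hf hB) hC hD
    · rcases h2 with ⟨x, hx, hvx⟩ | h2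
      · exact ⟨v, hv, x, (hC x hx).1, by rw [hf, (hC x hx).2], hvx⟩
      · exact ih _ _ _ _ h2 hr' hA hB (hcons 2 C hf hC) hD
    · rcases h3 with ⟨x, hx, hvx⟩ | h3
      · exact ⟨v, hv, x, (hD x hx).1, by rw [hf, (hD x hx).2], hvx⟩
      · exact ih _ _ _ _ h3 hr' hA hB hC (hcons 3 D hf hD)

theorem crit_of_refute {F : List ℕ} {V : List (ℕ × ℕ)} (h : refute V [] [] [] [] = true)
    (hV : V.all (fun p => elem p.1 F && (elem p.2 F && !sub p.1 p.2)) = true) :
    Crit (Fam F) 4 := by
  classical
  have hV' : ∀ p ∈ V, p.1 ∈ F ∧ p.2 ∈ F ∧ ¬ sub p.1 p.2 = true := by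
    intro p hp
    have := List.all_eq_true.mp hV p hp
    simp only [Bool.and_eq_true, Bool.not_eq_true'] at this
    exact ⟨mem_of_elem this.1, mem_of_elem this.2.1, by rw [this.2.2]; exact Bool.false_ne_true⟩
  refine ⟨{p : ℕ × ℕ // p ∈ V}, fun p => ⟨p.1.1, (hV' p.1 p.2).1⟩,
    fun p => ⟨p.1.2, (hV' p.1 p.2).2.1⟩, fun p => (hV' p.1 p.2).2.2, ?_⟩
  intro c
  obtain ⟨p, hp, q, hq, h1, h2⟩ := refute_spec V (fun p => if hp : p ∈ V then c ⟨p, hp⟩ else 0)
    V [] [] [] [] h (fun v hv => hv) (by simp) (by simp) (by simp) (by simp)
  simp only [hp, hq, dif_pos] at h1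
  unfold adj at h2
  rw [Bool.and_eq_true] at h2
  exact ⟨⟨p, hp⟩, ⟨q, hq⟩, h1, h2.1, h2.2⟩

/-! ## The lattice with 343 elements -/

/-- The intervals of the 72 doublings, the last one first. -/
def doublings : List (ℕ × ℕ) :=
  [(622614492309937981444, 1877283571669952629252),
   (376160908725574436864, 385384423699477956608),
   (415378259231774343168, 415378259231774343168),
   (77826810988986433792, 77826811538742247680), (90036039084117458944, 90036039084117458944),
   (49661792877563346944, 49661792877563346944), (14305413745105633536, 14377471373520077056),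
   (11837289824761544960, 12416002376879440128), (7423071555300622336, 7423071555300622336),
   (3729551138500904960, 4310832252859910144), (1828780857010160640, 2119421397009761280),
   (217622007158800512, 218184957112287360), (152005489675993216, 152005490212864128),
   (90705861135040512, 90846598656950272), (9113027265691648, 46549216683622400),
   (27377294087553408, 66234053271030656), (22556756466999552, 22556758614483264),
   (2270080272437280, 11843528283919008), (4926916167794688, 7302010551349254),
   (848977863901696, 849012224689664), (593770907173888, 1790317120621568),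
   (892942222966784, 895158562407936), (325730321825792, 489695883886592),
   (35470004256768, 53200702996592), (53471277481984, 53471277481984),
   (44056164974592, 49588351811996), (23645942710272, 23680571408384),
   (11565407666176, 11840285704256), (1653595963392, 1655760224256),
   (829079683072, 1955510620160), (277109277184, 2025600223907), (289927069696, 289927069696),
   (143889924096, 213150466048), (193407746048, 193407746048), (88055219200, 128474909711),
   (37589385216, 55306190848), (27116208128, 27653096448), (9397346304, 13860104736),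
   (6812600320, 7895320576), (271581184, 812835073), (270614528, 836878978),
   (337903616, 477427777), (137371648, 435233745), (69730336, 247265652),
   (77660160, 94582283), (42995712, 45101056), (21006592, 30841608), (9175048, 15683485),
   (1057024, 6174564), (1089536, 1634529), (548864, 685604), (573440, 705768),
   (413696, 481916), (16448, 228064), (24576, 96344), (8256, 29171), (8320, 30630),
   (2064, 15315), (5120, 5766), (2176, 3563), (128, 1507), (64, 463), (64, 376), (64, 239),
   (32, 111), (16, 28), (16, 29), (8, 11), (0, 7), (0, 3), (0, 1), (0, 0)]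

/-- The 343 masks. -/
def fam : List ℕ :=
  [0, 295147905179352825856, 296300826683959672832, 296309833883214413824,
   297453748188566519808, 298606669693173366784, 298606670242929180672, 298615676892428107776,
   298615677442183921664, 298615677442183938048, 590295810358705651712, 594907496377133039616,
   594943525174152003584, 595051611565208895488, 595051893040185606144, 595087640362227859456,
   595087641461739487232, 595087641462813229056, 595087921837204570112, 595087922936716197888,
   595087922936724586496, 595087922937789939712, 595087922937798328320, 595087922937798459392,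
   885443715538058477568, 885461729936567959552, 886623658640429547520, 887749558547272171520,
   887767572945781653504, 887767572946050088960, 888929501649643241472, 888929501649911676928,
   888929502199667507200, 890217531143071203328, 890217531143608074240, 890217812618047913984,
   890217812618584784896, 890217812618585309184, 890253561041212407808, 890253842516189118464,
   890253842516189642752, 890253842516198162432, 891379741321909501952, 891379741322446897152,
   891379741322446899200, 891415771220059752448, 892523374153090203648, 892523655628067438592,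
   892559404050694537216, 892559685525671772160, 892559685525680291840, 893685584331929026560,
   893685584331929028608, 893685584881684858880, 893721614229541881856, 893721614779297712128,
   1180591620717411303424, 1189814992754266079232, 1199038364791120855040,
   1199110422385158782976, 1208333794422013558784, 1208333798820060069888,
   1217485108864830406656, 1226708480901685182464, 1226709043851638603776,
   1226709052647731625984, 1235931852938539958272, 1235932978838446800896,
   1236003910532577886208, 1236005036432484728832, 1236005036436779696128,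
   1245227282569432662016, 1245227282571580145664, 1245227286969626656768,
   1245227845521533566976, 1245227845521534615552, 1245227849919581126656,
   1245227854317627637760, 1245227858715674148864, 1245228408475781955584,
   1245228412873828466688, 1245228971425735376896, 1245228971425736425472,
   1245228971425736429568, 1245228975823782936576, 1245228975823782940672,
   1245228975823782940680, 1245228980221829451776, 1245228984619875962880,
   1245228984619875962888, 1245228984619875962889, 1486115819438225752064,
   1486115821637249007616, 1486124826637480493056, 1486124828836503748608,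
   1486124828836503756800, 1488421665196218515456, 1488430672395473256448,
   1488430672395473264640, 1488430672395473281024, 1504643632703274483712,
   1504643634902297747456, 1504643634902297747458, 1506949478461267271682,
   1523009881530714554368, 1523018888729969303552, 1525315725089684062208,
   1525324732288938811392, 1525324732288938827776, 1541537694797911826432,
   1541537694797911826434, 1541538820702113640459, 1543843538356881350658,
   1543844664261083164683, 1793945861168253894656, 1793981889965272858624,
   1794017918762291822592, 1794053947559310786560, 1794162315425344389120,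
   1794198344222363353088, 1794198344222380130304, 1794198345321900146688,
   1794198345321900179456, 1794198345322974052352, 1803385691860245676032,
   1803421720657281417216, 1803421721756801466368, 1803421721757875339264,
   1830876504012598804480, 1830948561606636732416, 1830948561610931699712,
   1831092958274001043456, 1831092959373521059840, 1831092959373521092608,
   1831092959373521092672, 1831092959374594965568, 1840316334711049814016,
   1840316335810569863168, 1840316335810569863232, 1840316335811643736128,
   1840316898760524337224, 1840316898761598210120, 1840316907557691232329,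
   2099713540141969571840, 2099713540142506969088, 2099713542341530232834,
   2099749570040136632320, 2099749572239159896066, 2102019385900768192514,
   2102055415798397855746, 2136644758038975789131, 2138950601598213748811,
   2361183241434822606848, 2434970217729660813312, 2508757194024499019776,
   2509333654776802443264, 2582544170319337226240, 2582546422119150911488,
   2582546562856639266816, 2583120631071640649728, 2583122882871454334976,
   2583122882905814073344, 2583122883043253026816, 2583123023643302428672,
   2583123023780741382144, 2583123023780741644288, 2732423965918227333120,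
   2732423983510413377536, 2732423983510417571840, 2733576905564776038400,
   2733576905564780232704, 2733585912764034990080, 2880000328637391831040,
   2880000328637396025344, 2880576789561498402816, 2881153250691754491904,
   2881153250691758686208, 2881153250691758686224, 2881162257891013443600,
   2881729711615861063696, 2881738718815115821072, 2951479051793528258560,
   2951767282169679970304, 2956414996985126322176, 2956415067353870499840,
   2956559183641457983488, 2956559183641491537920, 2956559183642531725312,
   2956559183642565279744, 2956559183642565345280, 2956559465116476637184,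
   2956559465117550379008, 2956559465117550444544, 2956559465117550575616,
   3025266028088366465024, 3025554258464518176768, 3025554293648890265600,
   3025554293666070134784, 3030202078833080795136, 3030202078850260664320,
   3030346195138921889792, 3030346195138955509760, 3030346195138955509888,
   3030346476613940740224, 3099917695511659806720, 3104565410327106158592,
   3104565480695850336256, 3104565480695984553984, 3104709596983605592064,
   3104709596984679399424, 3104709878458590691328, 3104709878459664498688,
   3104709878459664629760, 3173704671806498013184, 3173704706990870102016,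
   3173704706990937210880, 3173704707008117080064, 3173706958962549587968,
   3173706958979729457152, 3173707099717218074624, 3178352492175060631552,
   3178352492175127740416, 3178352492175261958144, 3178352492192307609600,
   3178352492192441827328, 3178354744146874335232, 3178354744164054204416,
   3178354744164054204448, 3178354884901542821920, 3178496608481136672768,
   3178496608481136672896, 3178496889956121903232, 3178498860452749050016,
   3178499001190237667488, 3178499141927734280352, 3178499282665222897824,
   3322719776276932984832, 3322719776285522919424, 3322719793877713158144,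
   3322737790684300836864, 3322737808276491075584, 3323008041863226589184,
   3323008059455416827904, 3323026056262004506624, 3323026073854194745344,
   3323026073854194745348, 3323899737530108493824, 3324188003107812163588,
   3327817957735393132544, 3327817957735426752640, 3327817975327616991364,
   3327818239210412507264, 3327818256802602745988, 3328980186056220166276,
   3471160865506564767744, 3471178879905342685188, 3472340809158960103444,
   3475970781378899148964, 3475971062853884903588, 3477132992107502323892,
   3726242302889329426432, 3726246806488956796928, 3726818763641632849920,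
   3726823267241260220416, 3726823267309979697152, 3735470741475764994048,
   3735470750271858016256, 3736047202296787894272, 3736047211092880916480,
   3745266633615249244160, 3745266633890127151104, 3745271137558473998336,
   3745271137558476095488, 3745338691488460046336, 3745343195156806893568,
   3745343195156808990720, 3745343195156808991744, 3754567130145762574336,
   3754567130145763627008, 3754567130145765725184, 3754567134543812236296,
   3754567138941856649216, 3754567138941858747392, 3754567143339905258504,
   3754567143339905258505, 3800036034583608688640, 3800036175321097043968,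
   3800612495335912112128, 3800612495370271850496, 3800612495438991327232,
   3800612495576430280704, 3800612636107760205824, 3800612636176479682560,
   3800612636313918636032, 3800612636313918636288, 3800612636313918898432,
   3809260119103998263296, 3809836579959380901888, 3809836580096819855616,
   3809836580096820117760, 3819060365824926679040, 3819060365824926679552,
   3819060506562415035136, 3819060506562415297280, 3819132423423259575808,
   3819132564160747931392, 3819132564160748193536, 3828356507945797687040,
   3828356507945797949184, 3828356512343844460297, 4107866809138136743936,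
   4107866809138140938256, 4107875816337395703824, 4108443270130962792720,
   4108452277330217558288, 4126972209577241900827, 4340498389165552959488,
   4340498389440430866432, 4340498459809309261824, 4340502963477658206208,
   4340570447038763761664, 4340570517407642157056, 4340575021075991101440,
   4340575021075991102464, 4340714915170265071616, 4340714915170265104448,
   4340714915171339042880, 4340719418838614049856, 4340719418839687988288,
   4349943358225617294408, 4349943358226691232840, 4349943367022784255049,
   4414292226928547987456, 4414292226928547987968, 4414292226945727857184,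
   4414292367683216474912, 4414364284526880884224, 4414364284544060753440,
   4414364425281549371168, 4414508682307757639392, 4414508823045246257120,
   4423732771228342523881, 4722366482869645213695]

/-- Nineteen critical pairs. -/
def critPairs : List (ℕ × ℕ) :=
  [(296309833883214413824, 4108443270130962792720),
   (1180591620717411303424, 3477132992107502323892),
   (2509333654776802443264, 4107875816337395703824),
   (2361183241434822606848, 2138950601598213748811),
   (295147905179352825856, 4423732771228342523881),
   (590295810358705651712, 4126972209577241900827),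
   (2434970217729660813312, 4349943367022784255049),
   (1189814992754266079232, 4414508823045246257120),
   (1217485108864830406656, 2102055415798397855746),
   (297453748188566519808, 2136644758038975789131),
   (595051893040185606144, 3475970781378899148964),
   (2508757194024499019776, 3328980186056220166276),
   (595087641462813229056, 4349943358225617294408),
   (296300826683959672832, 3475971062853884903588),
   (594907496377133039616, 3472340809158960103444),
   (2582546422119150911488, 3178496889956121903232),
   (3025554293666070134784, 4414364284526880884224),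
   (1199110422385158782976, 4414292367683216474912),
   (3726246806488956796928, 4340714915171339042880)]

theorem run_doublings : run doublings = some fam := by decide +kernel

theorem degreeCheck_fam : degreeCheck fam = true := by decide +kernel

theorem critPairs_mem :
    critPairs.all (fun p => elem p.1 fam && (elem p.2 fam && !sub p.1 p.2)) = true := by
  decide +kernel

theorem refute_critPairs : refute critPairs [] [] [] [] = true := by decide +kernel

/-- The induction over `r`. -/
theorem main (n : ℕ) : ∃ (L : Type) (_ : Lattice L) (_ : Finite L),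
    CongruenceUniform L ∧ HasseRegular (4 + n) L ∧ Crit L (4 + n) ∧ ∃ a b : L, ∀ x, a ≤ x ∧ x ≤ b := by
  induction n with
  | zero =>
    obtain ⟨hcl, hCU⟩ := run_spec doublings fam run_doublings
    obtain ⟨t, ht, htop⟩ := hcl.top
    refine ⟨Fam fam, hcl.lattice, inferInstance, hCU, hasseRegular_of_check degreeCheck_fam,
      crit_of_refute refute_critPairs critPairs_mem, ⟨0, ?_⟩, ⟨t, ht⟩, ?_⟩
    · exact mem_of_elem (by decide +kernel)
    · intro x
      exact ⟨sub_iff.mpr (Nat.zero_and _), htop x.val x.mem⟩
  | succ n ih =>
    obtain ⟨L, hL, hfin, hCU, hreg, hcrit, a, b, hab⟩ := ih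
    refine ⟨L × Bool, inferInstance, inferInstance, congruenceUniform_prod hab hCU, ?_,
      crit_prod hab hcrit, (a, false), (b, true), ?_⟩
    · rintro ⟨x, i⟩
      rw [hasseDegree_prod, hreg x]
      rfl
    · rintro ⟨x, i⟩
      exact ⟨⟨(hab x).1, Bool.false_le _⟩, ⟨(hab x).2, Bool.le_true _⟩⟩

end Pool.Agent.helper20.HasseDim
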